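import Pool.Agent.Lib.MP_6e5bed_ag_SY.StF

set_option autoImplicit false

/-!
# Kimura-finiteness of symmetric powers of dg algebras

Let `k` be a field, let `X` be a smooth proper dg algebra over `k`, and let `n > 0` be such that
`n!` is invertible in `k`. The symmetric power `S^n X`, the crossed product of `X^{⊗n}` with the
symmetric group `S_n`, exists, and it is smooth and proper. The category of noncommutative Chow
motives over `k` with rational coefficients exists, and the noncommutative Chow motive of `S^n X`
is Kimura-finite if and only if the one of `X` is Kimura-finite.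
-/

namespace Pool.Agent.Results.MP_6e5bed_ag.SymmetricPowers

open CategoryTheory MonoidalCategory Pool.Agent.MP_6e5bed_ag Pool.Agent.MP_6e5bed_ag_SP
open Pool.Agent.MP_6e5bed_ag_SY

universe u

theorem result (k : Type u) [Field k] {A : Type u} [Ring A] [Algebra k A] (X : DG k A)
    (hX : SmPr X) (n : ℕ) (h0 : 0 < n) (hn : (n.factorial : k) ≠ 0) :
    HasModel k ∧
    (∃ (B : Type u) (_ : Ring B) (_ : Algebra k B) (E : DG k B) (j : Fin n → A →ₐ[k] B)
      (v : Equiv.Perm (Fin n) →* B), IsSym X E n j v) ∧
    ∀ (B : Type u) [Ring B] [Algebra k B] (E : DG k B) (j : Fin n → A →ₐ[k] B)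
      (v : Equiv.Perm (Fin n) →* B), IsSym X E n j v → ∃ hE : SmPr E,
        ∀ (C : Type (u + 1)) [Category.{u + 1} C] [MonoidalCategory C] [SymmetricCategory C]
          [Preadditive C] [MonoidalPreadditive C] [Linear ℚ C] (H : NCMot k C),
          KimuraFinite (H.U E hE) ↔ KimuraFinite (H.U X hX) :=
  ⟨hasModel k, exists_isSym X n, fun _ _ _ _ _ _ h =>
    ⟨h.smPr hn hX, fun _ _ _ _ _ _ _ H => h.kimuraFinite_iff h0 hn hX _ H⟩⟩

end Pool.Agent.Results.MP_6e5bed_ag.SymmetricPowers
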