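import Pool.Agent.Lib.MP_6e5bed_ag_SP.Final

set_option autoImplicit false

/-!
# Tensor products with Schur functors of noncommutative Chow motives

Let `k` be a field. The category of noncommutative Chow motives over `k` with rational
coefficients exists. If `M`, `N` are objects of it, `n > 0`, `B` is the image of an element `z` of
the group algebra `ℚ[S_n]` (for example of a Young symmetrizer) acting on `M^{⊗n}`, and `B ⊗ N` is
not zero and Kimura-finite, then `M` and `N` are Kimura-finite.
-/

namespace Pool.Agent.Results.MP_6e5bed_ag.TensorSchur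

open CategoryTheory MonoidalCategory Pool.Agent.MP_6e5bed_ag Pool.Agent.MP_6e5bed_ag_SP

universe u

theorem result (k : Type u) [Field k] : HasModel k ∧
    ∀ (C : Type (u + 1)) [Category.{u + 1} C] [MonoidalCategory C] [SymmetricCategory C]
      [Preadditive C] [MonoidalPreadditive C] [Linear ℚ C], NCMot k C → ∀ (M N B : C) (n : ℕ)
      (z : MonoidAlgebra ℚ (Equiv.Perm (Fin n))) (i : B ⟶ tpow M n) (r : tpow M n ⟶ B), 0 < n →
      i ≫ r = 𝟙 B → r ≫ i = za M z → ¬ Limits.IsZero (B ⊗ N) → KimuraFinite (B ⊗ N) →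
      KimuraFinite M ∧ KimuraFinite N := by
  refine ⟨hasModel k, fun C _ _ _ _ _ _ H M N B n z i r hn hir hri h0 h => ?_⟩
  obtain ⟨hB, hN⟩ := H.cancellation h0 h
  have hB0 : ¬ Limits.IsZero B := by
    intro hz
    refine h0 ((Limits.IsZero.iff_id_eq_zero _).2 ?_)
    rw [← id_whiskerRight, (Limits.IsZero.iff_id_eq_zero _).1 hz]
    exact MonoidalPreadditive.zero_whiskerRight
  exact ⟨H.schur hn z i r hir hri hB0 hB, hN⟩

end Pool.Agent.Results.MP_6e5bed_ag.TensorSchur
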